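import Mathlib
import Pool.Agent.Y268.D3.Defs
import Pool.Agent.Y784.KS.MU
import Pool.Agent.H711R2.KG.P.C5
import Pool.Agent.H711R2.KG.P.C6
import Pool.Agent.H862R2.Kad.Embed

/-!
The estimate for the forms in a corner of an algebra with matrix units.
-/

open scoped ComplexOrder InnerProductSpace ComplexConjugate Topology
open Finset Filter

noncomputable section

set_option linter.unusedSectionVars false

namespace Pool.Agent.Z932.D3

open H759R2.Kad H711R2.KG H711R2.KG.P_C5 H711R2.KG.P_C6 Pool.Agent.Y784.KS Y268.D3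

/-! ### The algebra -/

section alg

variable {B : Type} [CStarAlgebra B]

/-- The elements of the decomposition. -/
def VV {n : ℕ} (t : Fin n → B) (v : B) : Option (Fin n) → B
  | none => v
  | some i => star (t i)

/-- The diagonal element with entries `c`. -/
def dd {n : ℕ} {C : Type} [CStarAlgebra C] (t : Fin n → B) (ι : C →⋆ₙₐ[ℂ] B) (c : C) : B :=
  ∑ k, t k * ι c * star (t k)

variable {n : ℕ} {t : Fin n → B} {i0 : Fin n} {v : B} {C : Type} [CStarAlgebra C]
  {ι : C →⋆ₙₐ[ℂ] B}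

theorem VV_sum (D : GDec (1 : B) t i0 v) : ∑ a, star (VV t v a) * VV t v a = 1 := by
  rw [Fintype.sum_option, ← D.sum, add_comm]
  congr 1
  refine Finset.sum_congr rfl fun i _ => ?_
  change star (star (t i)) * star (t i) = _
  rw [star_star]

theorem fVV (D : GDec (1 : B) t i0 v) (a : Option (Fin n)) : t i0 * VV t v a = VV t v a := by
  rcases a with _ | i
  · exact D.fv
  · change t i0 * star (t i) = star (t i)
    have := congrArg star (D.tf i)
    rwa [star_mul, D.fp.1] at this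

theorem cor_l (hι : IsCor ι (t i0)) (c : C) : t i0 * ι c = ι c := by
  rw [← hι.one, ← map_mul, one_mul]

theorem cor_r (hι : IsCor ι (t i0)) (c : C) : ι c * t i0 = ι c := by
  rw [← hι.one, ← map_mul, mul_one]

theorem dd_mul (D : GDec (1 : B) t i0 v) (hι : IsCor ι (t i0)) (c c' : C) :
    dd t ι c * dd t ι c' = dd t ι (c * c') := by
  unfold dd
  rw [Finset.sum_mul]
  refine Finset.sum_congr rfl fun k _ => ?_
  rw [Finset.mul_sum, Finset.sum_eq_single k]
  · have h1 : t k * ι c * star (t k) * (t k * ι c' * star (t k)) =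
        t k * (ι c * (star (t k) * t k)) * ι c' * star (t k) := by noncomm_ring
    rw [h1, D.tt, if_pos rfl, cor_r hι, map_mul]
    noncomm_ring
  · intro l _ hl
    have h1 : t k * ι c * star (t k) * (t l * ι c' * star (t l)) =
        t k * ι c * (star (t k) * t l) * ι c' * star (t l) := by noncomm_ring
    rw [h1, D.tt, if_neg (Ne.symm hl)]
    simp
  · simp

theorem dd_star (c : C) : star (dd t ι c) = dd t ι (star c) := by
  unfold dd
  rw [star_sum]
  refine Finset.sum_congr rfl fun k _ => ?_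
  rw [star_mul, star_mul, star_star, map_star, mul_assoc]

theorem dd_sum {κ : Type} [Fintype κ] (x : κ → C) : dd t ι (∑ s, x s) = ∑ s, dd t ι (x s) := by
  unfold dd
  rw [Finset.sum_comm]
  refine Finset.sum_congr rfl fun k _ => ?_
  rw [map_sum, Finset.mul_sum, Finset.sum_mul]

theorem dd_one_prj (D : GDec (1 : B) t i0 v) (hι : IsCor ι (t i0)) : IsPrj (dd t ι 1) :=
  ⟨by rw [dd_star, star_one], by rw [dd_mul D hι, mul_one]⟩

theorem norm_dd (D : GDec (1 : B) t i0 v) (hι : IsCor ι (t i0)) {N : ℕ} (g : Fin N → C)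
    (hg : IsPart g) :
    ‖∑ s, star (dd t ι (g s)) * dd t ι (g s)‖ ≤ 1 ∧
      ‖∑ s, dd t ι (g s) * star (dd t ι (g s))‖ ≤ 1 := by
  constructor
  · have h : ∑ s, star (dd t ι (g s)) * dd t ι (g s) = dd t ι 1 := by
      rw [← hg.1, dd_sum]
      refine Finset.sum_congr rfl fun s _ => ?_
      rw [dd_star, dd_mul D hι]
    rw [h]
    exact prj_norm (dd_one_prj D hι)
  · have h : ∑ s, dd t ι (g s) * star (dd t ι (g s)) = dd t ι 1 := by
      rw [← hg.2, dd_sum]
      refine Finset.sum_congr rfl fun s _ => ?_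
      rw [dd_star, dd_mul D hι]
    rw [h]
    exact prj_norm (dd_one_prj D hι)

theorem norm_v [PartialOrder B] [StarOrderedRing B] (D : GDec (1 : B) t i0 v)
    (hι : IsCor ι (t i0)) {N : ℕ} (g : Fin N → C) (hg : IsPart g) :
    ‖∑ s, star (ι (g s) * v) * (ι (g s) * v)‖ ≤ 1 ∧
      ‖∑ s, (ι (g s) * v) * star (ι (g s) * v)‖ ≤ 1 := by
  constructor
  · have h : ∑ s, star (ι (g s) * v) * (ι (g s) * v) = star v * v := by
      have h1 : ∀ s, star (ι (g s) * v) * (ι (g s) * v) =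
          star v * ι (star (g s) * g s) * v := by
        intro s
        rw [star_mul, map_mul, map_star]
        noncomm_ring
      rw [Finset.sum_congr rfl fun s _ => h1 s, ← Finset.sum_mul, ← Finset.mul_sum, ← map_sum,
        hg.1, hι.one, mul_assoc, D.fv]
    rw [h]
    exact prj_norm D.rp
  · have h0 : v * star v ≤ 1 := by
      refine (CStarAlgebra.norm_le_one_iff_of_nonneg (v * star v) (mul_star_self_nonneg v)).1 ?_
      rw [CStarRing.norm_self_mul_star, ← CStarRing.norm_star_mul_self]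
      exact prj_norm D.rp
    have h1 : ∑ s, (ι (g s) * v) * star (ι (g s) * v) ≤ ∑ s, ι (g s) * star (ι (g s)) := by
      refine Finset.sum_le_sum fun s _ => ?_
      have h2 := star_right_conjugate_le_conjugate h0 (ι (g s))
      rw [mul_one] at h2
      refine le_trans (le_of_eq ?_) h2
      rw [star_mul]
      noncomm_ring
    have h2 : ∑ s, ι (g s) * star (ι (g s)) = t i0 := by
      have h3 : ∀ s, ι (g s) * star (ι (g s)) = ι (g s * star (g s)) := by
        intro s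
        rw [map_mul, map_star]
      rw [Finset.sum_congr rfl fun s _ => h3 s, ← map_sum, hg.2, hι.one]
    have h3 : 0 ≤ ∑ s, (ι (g s) * v) * star (ι (g s) * v) :=
      Finset.sum_nonneg fun s _ => mul_star_self_nonneg _
    exact (CStarAlgebra.norm_le_norm_of_nonneg_of_le h3 (h1.trans_eq h2)).trans (prj_norm D.fp)

end alg

/-! ### The estimate -/

section sp

variable {B : Type} [CStarAlgebra B] {n : ℕ} {t : Fin n → B} {i0 : Fin n} {v : B}
  {C : Type} [CStarAlgebra C] {ι : C →⋆ₙₐ[ℂ] B}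
  {H : Type} [NormedAddCommGroup H] [InnerProductSpace ℂ H] [CompleteSpace H]
  {u : B →ₗ[ℂ] (H →L[ℂ] H)}

theorem hmulv (hu : IsHom u) (a b : B) (ξ : H) : u (a * b) ξ = u a (u b ξ) := by
  rw [hu.mul]
  rfl

theorem isoK (D : GDec (1 : B) t i0 v) (hu : IsHom u)
    (hst : ∀ i, star (u (t i)) = u (star (t i))) (x : Fin n → H)
    (hx : ∀ i, u (t i0) (x i) = x i) :
    ‖∑ i, u (t i) (x i)‖ ^ 2 = ∑ i, ‖x i‖ ^ 2 := by
  have h3 : ∀ i j, ⟪u (t i) (x i), u (t j) (x j)⟫_ℂ = ⟪x i, u (star (t i) * t j) (x j)⟫_ℂ := by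
    intro i j
    rw [hmulv hu, ← hst, ContinuousLinearMap.star_eq_adjoint,
      ContinuousLinearMap.adjoint_inner_right]
  have h2 : ⟪∑ i, u (t i) (x i), ∑ i, u (t i) (x i)⟫_ℂ = ∑ i, ⟪x i, x i⟫_ℂ := by
    rw [sum_inner]
    refine Finset.sum_congr rfl fun i _ => ?_
    rw [inner_sum, Finset.sum_eq_single i]
    · rw [h3, D.tt, if_pos rfl, hx]
    · intro j _ hj
      rw [h3, D.tt, if_neg (Ne.symm hj), map_zero]
      simp
    · simp
  have h4 : ∀ y : H, ⟪y, y⟫_ℂ = ((‖y‖ ^ 2 : ℝ) : ℂ) := by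
    intro y
    rw [inner_self_eq_norm_sq_to_K]
    push_cast
    rfl
  rw [h4, Finset.sum_congr rfl fun i _ => h4 (x i), ← Complex.ofReal_sum] at h2
  exact Complex.ofReal_injective h2

theorem est [PartialOrder B] [StarOrderedRing B] (hgt : St_gt.{0, 0}) (D : GDec (1 : B) t i0 v)
    (hι : IsCor ι (t i0)) (hu : IsHom u) (hst : ∀ i, star (u (t i)) = u (star (t i)))
    (ζ : H) (a : ℝ) (ha : 0 ≤ a) (hζ : ∀ x, ‖u x ζ‖ ≤ a * ‖x‖) {N : ℕ} (g : Fin N → C)
    (hg : IsPart g) :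
    ∑ o, ∑ s, ‖u (ι (g s)) (u (VV t v o) ζ)‖ ^ 2 ≤ 12 * a ^ 2 := by
  let T : B →ₗ[ℂ] H :=
    { toFun := fun x => u x ζ
      map_add' := fun x y => by
        rw [map_add]
        rfl
      map_smul' := fun c x => by
        rw [map_smul]
        rfl }
  have hT : ∀ x, T x = u x ζ := fun x => rfl
  have hG : ∀ x : Fin N → B, ‖∑ s, star (x s) * x s‖ ≤ 1 → ‖∑ s, x s * star (x s)‖ ≤ 1 →
      ∑ s, ‖u (x s) ζ‖ ^ 2 ≤ 6 * a ^ 2 := by
    intro x h1 h2
    have h3 := hgt B H T a ha hζ (Fin N) x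
    refine h3.trans ?_
    nlinarith [sq_nonneg a]
  rw [Fintype.sum_option]
  have e1 : ∑ s, ‖u (ι (g s)) (u (VV t v none) ζ)‖ ^ 2 ≤ 6 * a ^ 2 := by
    have h1 := hG (fun s => ι (g s) * v) (norm_v D hι g hg).1 (norm_v D hι g hg).2
    refine le_trans (le_of_eq ?_) h1
    refine Finset.sum_congr rfl fun s _ => ?_
    rw [hmulv hu]
    rfl
  have e2 : ∑ k, ∑ s, ‖u (ι (g s)) (u (VV t v (some k)) ζ)‖ ^ 2 ≤ 6 * a ^ 2 := by
    have h1 := hG (fun s => dd t ι (g s)) (norm_dd D hι g hg).1 (norm_dd D hι g hg).2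
    refine le_trans (le_of_eq ?_) h1
    rw [Finset.sum_comm]
    refine Finset.sum_congr rfl fun s _ => ?_
    have h2 : u (dd t ι (g s)) ζ = ∑ k, u (t k) (u (ι (g s)) (u (VV t v (some k)) ζ)) := by
      unfold dd
      rw [map_sum, _root_.sum_apply]
      refine Finset.sum_congr rfl fun k _ => ?_
      rw [hmulv hu, hmulv hu]
      rfl
    rw [h2, isoK D hu hst]
    intro k
    rw [← hmulv hu, cor_l hι]
  linarith

theorem inner_J (D : GDec (1 : B) t i0 v) (hu : IsHom u)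
    (hsV : ∀ a, star (u (VV t v a)) = u (star (VV t v a))) (x y : H) :
    ∑ a, ⟪u (VV t v a) x, u (VV t v a) y⟫_ℂ = ⟪x, y⟫_ℂ := by
  have h1 : ∀ a, ⟪u (VV t v a) x, u (VV t v a) y⟫_ℂ =
      ⟪x, u (star (VV t v a) * VV t v a) y⟫_ℂ := by
    intro a
    rw [hmulv hu, ← hsV, ContinuousLinearMap.star_eq_adjoint,
      ContinuousLinearMap.adjoint_inner_right]
  rw [Finset.sum_congr rfl fun a _ => h1 a, ← inner_sum]
  have h2 : ∑ a, u (star (VV t v a) * VV t v a) y = y := by
    rw [← _root_.sum_apply, ← map_sum, VV_sum D, hu.one]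
    rfl
  rw [h2]

theorem est_qa [PartialOrder B] [StarOrderedRing B] (hgt : St_gt.{0, 0})
    (D : GDec (1 : B) t i0 v) (hι : IsCor ι (t i0)) (hu : IsHom u)
    (hst : ∀ i, star (u (t i)) = u (star (t i))) {K : Submodule ℂ H}
    {w : C →ₗ[ℂ] (K →L[ℂ] K)} (hw : ∀ a (x : K), ((w a x : K) : H) = u (ι a) (x : H)) {m : ℕ}
    (ζ : HH (Fin m) H) (a : Fin m → ℝ) (ha : ∀ i, 0 ≤ a i)
    (hζ : ∀ i x, ‖u x (ζ i)‖ ≤ a i * ‖x‖) (y : HH (Option (Fin n) × Fin m) K)
    (hy : ∀ p, ((y p : K) : H) = u (VV t v p.1) (ζ p.2)) {q : Form K} (hq : q ∈ CB w) :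
    (qa q y y).re ≤ 12 * ∑ i, a i ^ 2 := by
  have hcl : IsClosed {q : Form K | (qa q y y).re ≤ 12 * ∑ i, a i ^ 2} := by
    refine isClosed_le (Complex.continuous_re.comp ?_) continuous_const
    unfold qa
    exact continuous_finsetSum _ fun p _ => continuous_apply_apply (y p) (y p)
  refine closure_minimal ?_ hcl hq
  rintro _ ⟨N, g, hg, rfl⟩
  change (qa (qf w g) y y).re ≤ _
  have h1 : (qa (qf w g) y y).re =
      ∑ i, ∑ o, ∑ s, ‖u (ι (g s)) (u (VV t v o) (ζ i))‖ ^ 2 := by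
    unfold qa qf
    rw [Complex.re_sum, Fintype.sum_prod_type, Finset.sum_comm]
    refine Finset.sum_congr rfl fun i _ => Finset.sum_congr rfl fun o _ => ?_
    rw [Complex.re_sum]
    refine Finset.sum_congr rfl fun s _ => ?_
    have h2 : ((w (g s) (y (o, i)) : K) : H) = u (ι (g s)) (u (VV t v o) (ζ i)) := by
      rw [hw, hy]
    rw [← h2]
    have h3 := inner_self_eq_norm_sq (𝕜 := ℂ) (w (g s) (y (o, i)))
    exact h3
  rw [h1, Finset.mul_sum]
  exact Finset.sum_le_sum fun i _ => est hgt D hι hu hst (ζ i) (a i) (ha i) (hζ i) g hg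

theorem vmap_corner (hι : IsCor ι (t i0)) (hu : IsHom u)
    (hst : ∀ i, star (u (t i)) = u (star (t i))) {K : Submodule ℂ H} [CompleteSpace K]
    (hK : ∀ x, x ∈ K ↔ u (t i0) x = x) {w : C →ₗ[ℂ] (K →L[ℂ] K)}
    (hw : ∀ a (x : K), ((w a x : K) : H) = u (ι a) (x : H)) (a : C)
    (x : K) : ((vmap w a x : K) : H) = vmap u (ι a) (x : H) := by
  have e0 : vmap u (t i0) = u (t i0) := by
    rw [vmap_apply, ← hst, star_star]
  have hz : vmap u (ι a) (x : H) ∈ K := by
    rw [hK]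
    rw [← e0, ← hmulv hu.vmap, cor_l hι]
  have h1 : vmap w a x = ⟨vmap u (ι a) (x : H), hz⟩ := by
    refine ext_inner_left ℂ fun y => ?_
    have h2 : ⟪y, (⟨vmap u (ι a) (x : H), hz⟩ : K)⟫_ℂ = ⟪(y : H), vmap u (ι a) (x : H)⟫_ℂ := rfl
    rw [h2, vmap_apply, ContinuousLinearMap.star_eq_adjoint,
      ContinuousLinearMap.adjoint_inner_right, Submodule.coe_inner, hw, vmap_apply,
      ContinuousLinearMap.star_eq_adjoint, ContinuousLinearMap.adjoint_inner_right, map_star]
  rw [h1]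

end sp

/-! ### Extension by zero -/

section exz

variable {κ κ' : Type} [Fintype κ] [Fintype κ'] [DecidableEq κ] [DecidableEq κ']
  {K : Type} [NormedAddCommGroup K] [InnerProductSpace ℂ K] [CompleteSpace K]

theorem exv_inner (e : κ ↪ κ') (x y : HH κ K) :
    ⟪Embed.exv e x, Embed.exv e y⟫_ℂ = ⟪x, y⟫_ℂ := by
  rw [PiLp.inner_apply, PiLp.inner_apply]
  symm
  refine Fintype.sum_of_injective e e.injective _ _ (fun i hi => ?_) (fun i => ?_)
  · rw [Embed.exv_out e x i hi, inner_zero_left]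
  · rw [Embed.exv_apply, Embed.exv_apply]

theorem exv_qa (e : κ ↪ κ') (q : Form K) (hq : q 0 0 = 0) (x : HH κ K) :
    qa q (Embed.exv e x) (Embed.exv e x) = qa q x x := by
  unfold qa
  symm
  refine Fintype.sum_of_injective e e.injective _ _ (fun i hi => ?_) (fun i => ?_)
  · rw [Embed.exv_out e x i hi, hq]
  · rw [Embed.exv_apply]

end exz

end Pool.Agent.Z932.D3
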