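import Mathlib
import Pool.Agent.Y268.D3.Stm3
import Pool.Agent.Y784.KS.Fib2
import Pool.Agent.Z932.D3.Est

/-!
Fibre algebras: the bilinear bound (`S_fibbi`).
-/

open scoped ComplexOrder InnerProductSpace ComplexConjugate Topology
open Finset Filter

noncomputable section

namespace Pool.Agent.Z932.D3

open H759R2.Kad H711R2.KG H711R2.KG.P_C5 H711R2.KG.P_C6 Pool.Agent.Y784.KS Y268.D3

/-- The bilinear bound for fibre algebras with a tracial state which are not small. -/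
theorem prove_fibbi : S_CT → S_cb → S_fibbi := by
  intro hCT hcb B _ _ _ hB τ hτ hbig L m t i0 v D hm c hc hL H _ _ _ u hu hb hst hsv
  have hgt : St_gt.{0, 0} := main_gt
  have hc0 : 0 ≤ c := by linarith
  have hpos := trace_pos D hτ p_T_sub
  have hfp : IsPrj (t i0) := D.fp
  have hne : t i0 ≠ 0 := by
    intro h0
    rw [h0, map_zero] at hpos
    simp at hpos
  have hns := not_small D hB hτ hbig p_T_sub (p_B_trsmall p_B_minle p_T_sub) p_B_minsum
  obtain ⟨C, _, _, _, ι, hι⟩ := p_C_exists B (t i0) hfp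
  obtain ⟨hC, hCs⟩ := p_C_fib p_C_ord B C ι (t i0) hι hne hB
  obtain ⟨τ', hτ'⟩ := p_C_tr B C ι (t i0) τ hι hτ hpos
  have hD : HasDixmier τ' := p_B_dix p_B_step C hC τ' hτ'
  have hO : HasOrthA τ' := p_B_orth C τ' hτ'
    (main_dich C hC τ' hτ' fun K hK => hns K (hCs K hK))
  -- the space of the corner
  let K : Submodule ℂ H := LinearMap.ker ((u (t i0) - 1 : H →L[ℂ] H) : H →ₗ[ℂ] H)
  have hmem : ∀ x, x ∈ K ↔ u (t i0) x = x := by
    intro x
    change (u (t i0) - 1 : H →L[ℂ] H) x = 0 ↔ _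
    rw [sub_apply, one_apply_eq_self, sub_eq_zero]
  have hclosed : IsClosed (K : Set H) := (u (t i0) - 1 : H →L[ℂ] H).isClosed_ker
  have : CompleteSpace K := hclosed.completeSpace_coe
  have hcod : ∀ b, t i0 * b = b → ∀ ξ : H, u b ξ ∈ K := by
    intro b hfb ξ
    rw [hmem, ← hmulv hu, hfb]
  let w : C →ₗ[ℂ] (K →L[ℂ] K) :=
    { toFun := fun x => ((u (ι x)).comp K.subtypeL).codRestrict K
        (fun ξ => hcod _ (cor_l hι x) _)
      map_add' := by
        intro a b
        ext x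
        change u (ι (a + b)) (x : H) = u (ι a) (x : H) + u (ι b) (x : H)
        rw [map_add, map_add]
        rfl
      map_smul' := by
        intro r a
        ext x
        change u (ι (r • a)) (x : H) = r • u (ι a) (x : H)
        rw [map_smul, map_smul]
        rfl }
  have hw : ∀ a (x : K), ((w a x : K) : H) = u (ι a) (x : H) := fun a x => rfl
  have hwh : IsHom w := by
    constructor
    · intro a b
      ext x
      change u (ι (a * b)) (x : H) = u (ι a) (u (ι b) (x : H))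
      rw [map_mul, hmulv hu]
    · ext x
      change u (ι 1) (x : H) = x
      rw [hι.one]
      exact (hmem x).1 x.2
  have hwb : ∀ b, ‖w b‖ ≤ c * ‖b‖ := by
    intro b
    refine ContinuousLinearMap.opNorm_le_bound _ (by positivity) fun x => ?_
    change ‖u (ι b) (x : H)‖ ≤ c * ‖b‖ * ‖(x : H)‖
    refine ((u (ι b)).le_opNorm _).trans (mul_le_mul_of_nonneg_right ?_ (norm_nonneg _))
    rw [← hι.norm b]
    exact hb _
  have hlvl : LvlBd w (L * 2) c := by
    intro Y
    refine ContinuousLinearMap.opNorm_le_bound _ (by positivity) fun ξ => ?_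
    set b : B := Phi t (t i0) ι D.tt (cor_l hι) Y with hbdef
    have hbv : b = ∑ i, ∑ j, t i * ι (Y i j) * star (t j) := rfl
    have hVL : ∀ ξ : HH (Fin (L * 2)) K, ‖∑ i, u (t i) ((ξ i : K) : H)‖ = ‖ξ‖ := by
      intro ξ
      have h1 : ‖∑ i, u (t i) ((ξ i : K) : H)‖ ^ 2 = ‖ξ‖ ^ 2 := by
        rw [isoK D hu hst (fun i => ((ξ i : K) : H)) (fun i => (hmem _).1 (ξ i).2),
          PiLp.norm_sq_eq_of_L2]
        rfl
      exact (sq_eq_sq₀ (norm_nonneg _) (norm_nonneg _)).1 h1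
    have e1 : u b (∑ i, u (t i) ((ξ i : K) : H)) =
        ∑ i, u (t i) ((amp w (Fin (L * 2)) Y ξ i : K) : H) := by
      have e2 : ∀ k, b * t k = ∑ i, t i * ι (Y i k) := by
        intro k
        rw [hbv, Finset.sum_mul]
        refine Finset.sum_congr rfl fun i _ => ?_
        rw [Finset.sum_mul, Finset.sum_eq_single k]
        · have : t i * ι (Y i k) * star (t k) * t k = t i * (ι (Y i k) * (star (t k) * t k)) := by
            noncomm_ring
          rw [this, D.tt, if_pos rfl, cor_r hι]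
        · intro j _ hj
          rw [mul_assoc, D.tt, if_neg hj, mul_zero]
        · simp
      rw [map_sum]
      have e3 : ∀ k, u b (u (t k) (ξ k : H)) = ∑ i, u (t i) (u (ι (Y i k)) (ξ k : H)) := by
        intro k
        rw [← hmulv hu, e2, map_sum, _root_.sum_apply]
        exact Finset.sum_congr rfl fun i _ => hmulv hu _ _ _
      rw [Finset.sum_congr rfl fun k _ => e3 k, Finset.sum_comm]
      refine Finset.sum_congr rfl fun i _ => ?_
      rw [← map_sum]
      congr 1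
      rw [amp_apply, Submodule.coe_sum]
      rfl
    calc ‖amp w (Fin (L * 2)) Y ξ‖ = ‖u b (∑ i, u (t i) ((ξ i : K) : H))‖ := by rw [e1, hVL]
      _ ≤ ‖u b‖ * ‖∑ i, u (t i) ((ξ i : K) : H)‖ := (u b).le_opNorm _
      _ ≤ c * ‖Y‖ * ‖ξ‖ := by
        rw [hVL]
        refine mul_le_mul_of_nonneg_right ((hb b).trans ?_) (norm_nonneg _)
        exact mul_le_mul_of_nonneg_left (NonUnitalStarAlgHom.norm_apply_le _ Y) hc0
  -- the main inequality
  obtain ⟨r₁, hr₁, r₂, hr₂, hmain⟩ := hCT C τ' hτ' hD hO K w hwh c hc L (2 * m) (by positivity)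
    hL hlvl
  obtain ⟨-, -, -, hform2, -, -⟩ := hcb C K w hwh c hc0 hwb
  obtain ⟨-, -, -, hform1, -, -⟩ := hcb C K (vmap w) hwh.vmap c hc0
    ((prove3_vmap C K w).2.2 c hwb)
  have hr20 : r₂ 0 0 = 0 := by
    have h := (hform2 r₂ hr₂).smul 0 0 0
    rwa [zero_smul, zero_mul] at h
  have hr10 : r₁ 0 0 = 0 := by
    have h := (hform1 r₁ hr₁).smul 0 0 0
    rwa [zero_smul, zero_mul] at h
  intro X ζ η a b ha hb' hζ hη
  -- lift to `C`
  have hV := VV_sum D
  have hVf : ∀ a, star (VV t v a) * t i0 = star (VV t v a) := by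
    intro a
    have := congrArg star (fVV D a)
    rwa [star_mul, hfp.1] at this
  have hsV : ∀ a, star (u (VV t v a)) = u (star (VV t v a)) := by
    rintro (_ | i)
    · exact hsv
    · change star (u (star (t i))) = u (star (star (t i)))
      rw [← hst, star_star, star_star]
  have hent : ∀ p q : Option (Fin (L * 2)) × Fin m, ∃ x : C, ι x = PsiK (VV t v) hV m X p q := by
    intro p q
    apply hι.surj
    rw [psiK_apply]
    calc t i0 * (VV t v p.1 * X p.2 q.2 * star (VV t v q.1)) * t i0 =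
        (t i0 * VV t v p.1) * X p.2 q.2 * (star (VV t v q.1) * t i0) := by noncomm_ring
      _ = _ := by rw [fVV D, hVf]
  choose Z hZ using hent
  let Xh : CStarMatrix (Option (Fin (L * 2)) × Fin m) (Option (Fin (L * 2)) × Fin m) C :=
    CStarMatrix.ofMatrix Z
  have hXh : ‖Xh‖ ≤ ‖X‖ := by
    rw [← map_norm ι hι.norm]
    have : CStarMatrix.mapₙₐ (n := Option (Fin (L * 2)) × Fin m) ι Xh =
        PsiK (VV t v) hV m X := by
      ext p q
      exact hZ p q
    rw [this]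
    exact psiK_norm (VV t v) hV m X
  -- the isometry `J`
  let J : HH (Fin m) H → HH (Option (Fin (L * 2)) × Fin m) K := fun ζ =>
    WithLp.toLp 2 fun p => ⟨u (VV t v p.1) (ζ p.2), hcod _ (fVV D _) _⟩
  have hJa : ∀ ζ p, ((J ζ p : K) : H) = u (VV t v p.1) (ζ p.2) := fun ζ p => rfl
  have hJi : ∀ x y, ⟪J x, J y⟫_ℂ = ⟪x, y⟫_ℂ := by
    intro x y
    rw [PiLp.inner_apply, PiLp.inner_apply, Fintype.sum_prod_type, Finset.sum_comm]
    refine Finset.sum_congr rfl fun i _ => ?_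
    rw [← inner_J D hu hsV (x i) (y i)]
    refine Finset.sum_congr rfl fun o _ => ?_
    rw [Submodule.coe_inner, hJa, hJa]
  have hJn : ∀ x, ‖J x‖ ^ 2 = ‖x‖ ^ 2 := by
    intro x
    have h := congrArg Complex.re (hJi x x)
    have h1 := inner_self_eq_norm_sq (𝕜 := ℂ) (J x)
    have h2 := inner_self_eq_norm_sq (𝕜 := ℂ) x
    rw [← h1, ← h2]
    exact h
  have hint : ∀ ξ, J (amp u (Fin m) X ξ) = amp w (Option (Fin (L * 2)) × Fin m) Xh (J ξ) := by
    intro ξ
    ext p
    rw [hJa, amp_apply, amp_apply, Submodule.coe_sum, map_sum, Fintype.sum_prod_type,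
      Finset.sum_comm]
    refine Finset.sum_congr rfl fun j _ => ?_
    have e1 : ∀ a, ((w (Xh p (a, j)) (J ξ (a, j)) : K) : H) =
        u (VV t v p.1 * X p.2 j * (star (VV t v a) * VV t v a)) (ξ j) := by
      intro a
      rw [hw, hJa]
      have : ι (Xh p (a, j)) = VV t v p.1 * X p.2 j * star (VV t v a) := hZ p (a, j)
      rw [this, ← hmulv hu, mul_assoc]
    rw [Finset.sum_congr rfl fun a _ => e1 a]
    have e2 : ∑ a, u (VV t v p.1 * X p.2 j * (star (VV t v a) * VV t v a)) =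
        u (VV t v p.1 * X p.2 j) := by
      rw [← map_sum, ← Finset.mul_sum, hV, mul_one]
    have e3 : ∑ a, (u (VV t v p.1 * X p.2 j * (star (VV t v a) * VV t v a))) (ξ j) =
        u (VV t v p.1 * X p.2 j) (ξ j) := by
      rw [← e2, _root_.sum_apply]
    rw [e3, hmulv hu]
  -- the embedding
  have hL0 : 0 < L * 2 := i0.pos
  have hcard : Fintype.card (Option (Fin (L * 2)) × Fin m) ≤ 2 * m * L * 2 := by
    rw [Fintype.card_prod, Fintype.card_option, Fintype.card_fin, Fintype.card_fin]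
    nlinarith
  have hemb : Nonempty (Option (Fin (L * 2)) × Fin m ↪ Fin (2 * m * L * 2)) := by
    refine Function.Embedding.nonempty_of_card_le ?_
    simpa using hcard
  obtain ⟨e⟩ := hemb
  have h1 := hmain (Embed.exH e Xh) (Embed.exv e (J ζ)) (Embed.exv e (J η))
  rw [Embed.amp_ex, exv_inner, ← hint, hJi, exv_qa e r₂ hr20, exv_qa e r₁ hr10,
    Embed.exv_norm, Embed.exv_norm, hJn, hJn] at h1
  -- the estimates of the forms
  have hq2 : (qa r₂ (J ζ) (J ζ)).re ≤ 12 * ∑ i, a i ^ 2 :=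
    est_qa hgt D hι hu hst hw ζ a ha hζ (J ζ) (hJa ζ) hr₂
  have hst' : ∀ i, star (vmap u (t i)) = vmap u (star (t i)) := by
    intro i
    rw [vmap_apply, vmap_apply, star_star, star_star, hst]
  have hq1 : (qa r₁ (J η) (J η)).re ≤ 12 * ∑ i, b i ^ 2 := by
    refine est_qa hgt D hι hu.vmap hst' (vmap_corner hι hu hst hmem hw) η b hb' hη (J η)
      ?_ hr₁
    intro p
    rw [hJa, vmap_apply, ← hsV, star_star]
  have hone : ‖(1 : B)‖ ≤ 1 := prj_norm ⟨star_one B, one_mul 1⟩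
  have hnζ : ‖ζ‖ ^ 2 ≤ ∑ i, a i ^ 2 := by
    rw [PiLp.norm_sq_eq_of_L2]
    refine Finset.sum_le_sum fun i _ => ?_
    have h2 := hζ i 1
    rw [hu.one] at h2
    refine pow_le_pow_left₀ (norm_nonneg _) (h2.trans ?_) 2
    exact mul_le_of_le_one_right (ha i) hone
  have hnη : ‖η‖ ^ 2 ≤ ∑ i, b i ^ 2 := by
    rw [PiLp.norm_sq_eq_of_L2]
    refine Finset.sum_le_sum fun i _ => ?_
    have h2 := hη i 1
    rw [hu.vmap.one] at h2
    refine pow_le_pow_left₀ (norm_nonneg _) (h2.trans ?_) 2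
    exact mul_le_of_le_one_right (hb' i) hone
  have hX : ‖Embed.exH e Xh‖ ≤ ‖X‖ := (NonUnitalStarAlgHom.norm_apply_le _ Xh).trans hXh
  have hA : 0 ≤ ∑ i, a i ^ 2 := Finset.sum_nonneg fun i _ => sq_nonneg _
  have hBb : 0 ≤ ∑ i, b i ^ 2 := Finset.sum_nonneg fun i _ => sq_nonneg _
  have hp2 : 0 ≤ (qa r₂ (J ζ) (J ζ)).re := by
    unfold qa
    rw [Complex.re_sum]
    exact Finset.sum_nonneg fun p _ => (hform2 r₂ hr₂).pos _
  have hp1 : 0 ≤ (qa r₁ (J η) (J η)).re := by
    unfold qa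
    rw [Complex.re_sum]
    exact Finset.sum_nonneg fun p _ => (hform1 r₁ hr₁).pos _
  refine h1.trans ?_
  calc 10000 * c ^ 2 * ‖Embed.exH e Xh‖ ^ 2 * ((qa r₂ (J ζ) (J ζ)).re + ‖ζ‖ ^ 2) *
        ((qa r₁ (J η) (J η)).re + ‖η‖ ^ 2)
      ≤ 10000 * c ^ 2 * ‖X‖ ^ 2 * (12 * ∑ i, a i ^ 2 + ∑ i, a i ^ 2) *
        (12 * ∑ i, b i ^ 2 + ∑ i, b i ^ 2) := by gcongr
    _ = (1300 * c) ^ 2 * ‖X‖ ^ 2 * (∑ i, a i ^ 2) * ∑ i, b i ^ 2 := by ring

end Pool.Agent.Z932.D3
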